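import Pool.Agent.helper42.ML.Defs2

/-!
Module H7 of project ML (MP_323ab2_al): upper triangular automorphisms of `F_n` are in the class
`UPG`.
-/

namespace Pool.Agent.helper42.ML

/-- The subgroup generated by the first `m` letters. -/
def H7_C (N m : ℕ) : Subgroup (FreeGroup (Fin N)) :=
  Subgroup.closure (FreeGroup.of '' {j : Fin N | j.val < m})

theorem H7_C_succ (N m : ℕ) (hm : m < N) :
    H7_C N (m + 1) = H7_C N m ⊔ Subgroup.zpowers (FreeGroup.of (⟨m, hm⟩ : Fin N)) := by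
  unfold H7_C
  rw [Subgroup.zpowers_eq_closure, ← Subgroup.closure_union]
  congr 1
  ext x
  simp only [Set.mem_image, Set.mem_ofPred_eq, Set.mem_union, Set.mem_singleton_iff]
  constructor
  · rintro ⟨j, hj, rfl⟩
    rcases Nat.lt_succ_iff_lt_or_eq.mp hj with h | h
    · exact Or.inl ⟨j, h, rfl⟩
    · right
      congr 1
      exact Fin.ext h
  · rintro (⟨j, hj, rfl⟩ | rfl)
    · exact ⟨j, Nat.lt_succ_of_lt hj, rfl⟩
    · exact ⟨⟨m, hm⟩, Nat.lt_succ_self m, rfl⟩

theorem H7_sup {G : Type*} [Group G] (C : Subgroup G) (x a b : G) (ha : a ∈ C) (hb : b ∈ C) :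
    C ⊔ Subgroup.zpowers (a * x * b) = C ⊔ Subgroup.zpowers x := by
  apply le_antisymm
  · refine sup_le le_sup_left ?_
    rw [Subgroup.zpowers_le]
    exact mul_mem (mul_mem (Subgroup.mem_sup_left ha)
      (Subgroup.mem_sup_right (Subgroup.mem_zpowers x))) (Subgroup.mem_sup_left hb)
  · refine sup_le le_sup_left ?_
    rw [Subgroup.zpowers_le]
    have h : a⁻¹ * (a * x * b) * b⁻¹ = x := by group
    have hm : a⁻¹ * (a * x * b) * b⁻¹ ∈ C ⊔ Subgroup.zpowers (a * x * b) :=
      mul_mem (mul_mem (Subgroup.mem_sup_left (inv_mem ha))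
        (Subgroup.mem_sup_right (Subgroup.mem_zpowers _))) (Subgroup.mem_sup_left (inv_mem hb))
    rwa [h] at hm

theorem H7_map (N : ℕ) (φ : MulAut (FreeGroup (Fin N))) (hφ : Tri N φ) (m : ℕ) (hm : m ≤ N) :
    (H7_C N m).map (φ : FreeGroup (Fin N) ≃* FreeGroup (Fin N)).toMonoidHom = H7_C N m := by
  induction m with
  | zero =>
    have h : H7_C N 0 = ⊥ := by
      unfold H7_C
      simp
    rw [h, Subgroup.map_bot]
  | succ m ih =>
    rw [H7_C_succ N m hm, Subgroup.map_sup, ih (by omega), MonoidHom.map_zpowers]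
    obtain ⟨a, ha, b, hb, h⟩ := hφ ⟨m, hm⟩
    have h' : (φ : FreeGroup (Fin N) ≃* FreeGroup (Fin N)).toMonoidHom
      (FreeGroup.of (⟨m, hm⟩ : Fin N)) = a * FreeGroup.of ⟨m, hm⟩ * b := h
    rw [h']
    exact H7_sup _ _ _ _ ha hb

theorem H7_castSucc (n : ℕ) (m : ℕ) (hm : m ≤ n) :
    (H7_C n m).map (FreeGroup.map (Fin.castSucc : Fin n → Fin (n + 1))) = H7_C (n + 1) m := by
  unfold H7_C
  rw [MonoidHom.map_closure]
  congr 1
  ext x
  simp only [Set.mem_image, Set.mem_ofPred_eq]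
  constructor
  · rintro ⟨_, ⟨j, hj, rfl⟩, rfl⟩
    exact ⟨j.castSucc, by simpa using hj, by simp⟩
  · rintro ⟨j, hj, rfl⟩
    exact ⟨_, ⟨⟨j.val, by omega⟩, hj, rfl⟩, by simp⟩

theorem H7_range (n : ℕ) :
    (FreeGroup.map (Fin.castSucc : Fin n → Fin (n + 1))).range = H7_C (n + 1) n := by
  rw [← H7_castSucc n n le_rfl, MonoidHom.range_eq_map]
  congr 1
  symm
  rw [eq_top_iff, ← FreeGroup.closure_range_of]
  unfold H7_C
  apply Subgroup.closure_mono
  rintro _ ⟨j, rfl⟩
  exact ⟨j, j.isLt, rfl⟩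

theorem H7_inj (n : ℕ) :
    Function.Injective (FreeGroup.map (Fin.castSucc : Fin n → Fin (n + 1))) :=
  FreeGroup.map_injective (Fin.castSucc_injective n)

/-- The restriction of a triangular automorphism. -/
theorem H7_restrict (n : ℕ) (φ : MulAut (FreeGroup (Fin (n + 1)))) (hφ : Tri (n + 1) φ) :
    ∃ φ' : MulAut (FreeGroup (Fin n)), ∀ x,
      FreeGroup.map (Fin.castSucc : Fin n → Fin (n + 1)) (φ' x) =
        φ (FreeGroup.map (Fin.castSucc : Fin n → Fin (n + 1)) x) := by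
  have hmap := H7_map (n + 1) φ hφ n (by omega)
  rw [← H7_range n] at hmap
  let ι := FreeGroup.map (Fin.castSucc : Fin n → Fin (n + 1))
  let e1 : FreeGroup (Fin n) ≃* ι.range := MonoidHom.ofInjective (H7_inj n)
  let e2 : ι.range ≃* ι.range :=
    (MulEquiv.subgroupMap (φ : FreeGroup (Fin (n + 1)) ≃* FreeGroup (Fin (n + 1))) ι.range).trans
      (MulEquiv.subgroupCongr hmap)
  refine ⟨(e1.trans e2).trans e1.symm, fun x => ?_⟩
  have h1 : ∀ y : ι.range, ι (e1.symm y) = y := fun y => by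
    have h := congrArg Subtype.val (e1.apply_symm_apply y)
    exact h
  exact h1 (e2 (e1 x))

/-- The splitting off of the last letter. -/
theorem H7_split (n : ℕ) : ∃ e : FreeGroup (Fin (n + 1)) ≃*
    Monoid.Coprod (FreeGroup (Fin n)) (Multiplicative ℤ),
    (∀ x, e (FreeGroup.map (Fin.castSucc : Fin n → Fin (n + 1)) x) = Monoid.Coprod.inl x) ∧
    e (FreeGroup.of (Fin.last n)) = Monoid.Coprod.inr (Multiplicative.ofAdd 1) := by
  let f : FreeGroup (Fin (n + 1)) →* Monoid.Coprod (FreeGroup (Fin n)) (Multiplicative ℤ) :=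
    FreeGroup.lift (Fin.lastCases (Monoid.Coprod.inr (Multiplicative.ofAdd 1))
      (fun i => Monoid.Coprod.inl (FreeGroup.of i)))
  let g : Monoid.Coprod (FreeGroup (Fin n)) (Multiplicative ℤ) →* FreeGroup (Fin (n + 1)) :=
    Monoid.Coprod.lift (FreeGroup.map Fin.castSucc) (zpowersHom _ (FreeGroup.of (Fin.last n)))
  have hf1 : ∀ x, f (FreeGroup.map (Fin.castSucc : Fin n → Fin (n + 1)) x) =
      Monoid.Coprod.inl x := by
    intro x
    have h : f.comp (FreeGroup.map (Fin.castSucc : Fin n → Fin (n + 1))) =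
        (Monoid.Coprod.inl : FreeGroup (Fin n) →* _) := by
      apply FreeGroup.ext_hom
      intro i
      simp [f]
    exact DFunLike.congr_fun h x
  have hf2 : f (FreeGroup.of (Fin.last n)) = Monoid.Coprod.inr (Multiplicative.ofAdd 1) := by
    simp [f]
  refine ⟨MonoidHom.toMulEquiv f g ?_ ?_, hf1, hf2⟩
  · apply FreeGroup.ext_hom
    intro i
    refine Fin.lastCases ?_ (fun j => ?_) i
    · rw [MonoidHom.comp_apply, hf2]
      simp [g]
    · have h : FreeGroup.of j.castSucc =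
        FreeGroup.map (Fin.castSucc : Fin n → Fin (n + 1)) (FreeGroup.of j) := by simp
      rw [MonoidHom.comp_apply, h, hf1]
      simp [g]
  · apply Monoid.Coprod.hom_ext
    · ext i
      simp only [MonoidHom.comp_apply, g, Monoid.Coprod.lift_apply_inl, MonoidHom.id_apply]
      exact hf1 _
    · apply MonoidHom.ext_mint
      simp only [MonoidHom.comp_apply, g, Monoid.Coprod.lift_apply_inr, MonoidHom.id_apply]
      rw [show (zpowersHom (FreeGroup (Fin (n + 1))) (FreeGroup.of (Fin.last n)))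
        (Multiplicative.ofAdd 1) = FreeGroup.of (Fin.last n) by simp]
      exact hf2

theorem H7_pull (n : ℕ) (i : ℕ) (hi : i ≤ n) (a : FreeGroup (Fin (n + 1)))
    (ha : a ∈ H7_C (n + 1) i) : ∃ a' ∈ H7_C n i,
      FreeGroup.map (Fin.castSucc : Fin n → Fin (n + 1)) a' = a := by
  rw [← H7_castSucc n i hi] at ha
  exact ha

theorem tri_UPG (n : ℕ) (φ : MulAut (FreeGroup (Fin n))) (hφ : Tri n φ) :
    UPG (FreeGroup (Fin n)) φ := by
  induction n with
  | zero => exact UPG.triv _ _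
  | succ n ih =>
    obtain ⟨φ', h'⟩ := H7_restrict n φ hφ
    have htri : Tri n φ' := by
      intro i
      obtain ⟨a, ha, b, hb, h⟩ := hφ i.castSucc
      obtain ⟨a', ha', rfl⟩ := H7_pull n i.val i.isLt.le a ha
      obtain ⟨b', hb', rfl⟩ := H7_pull n i.val i.isLt.le b hb
      refine ⟨a', ha', b', hb', H7_inj n ?_⟩
      rw [h', map_mul, map_mul]
      simpa using h
    obtain ⟨e, he1, he2⟩ := H7_split n
    obtain ⟨a, ha, b, hb, h⟩ := hφ (Fin.last n)
    obtain ⟨a', -, rfl⟩ := H7_pull n n le_rfl a ha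
    obtain ⟨b', -, rfl⟩ := H7_pull n n le_rfl b hb
    have hθ : ∀ x, (e.symm.trans
        ((φ : FreeGroup (Fin (n + 1)) ≃* FreeGroup (Fin (n + 1))).trans e)) x =
        e (φ (e.symm x)) := fun x => rfl
    refine UPG.iso _ _ e.symm (e.symm.trans
        ((φ : FreeGroup (Fin (n + 1)) ≃* FreeGroup (Fin (n + 1))).trans e)) φ (fun x => ?_)
      (UPG.ext (FreeGroup (Fin n)) φ' a' b' _ (fun x => ?_) ?_ (ih φ' htri))
    · rw [hθ, e.symm_apply_apply]
    · rw [hθ, ← he1 x, e.symm_apply_apply, ← h', he1]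
    · rw [hθ, ← he2, e.symm_apply_apply, h, map_mul, map_mul, he1, he1]

end Pool.Agent.helper42.ML
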