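import Pool.Agent.helper42.ML.Defs2

/-!
Module H8 of project ML (MP_323ab2_al): the class `UPG` is closed under positive powers.
-/

namespace Pool.Agent.helper42.ML

theorem H8_semi {F F' : Type} [Group F] [Group F'] (e : F → F') (φ : MulAut F) (φ' : MulAut F')
    (h : ∀ x, e (φ x) = φ' (e x)) (k : ℕ) : ∀ x, e ((φ ^ k) x) = (φ' ^ k) (e x) := by
  induction k with
  | zero => intro x; simp
  | succ k ih =>
    intro x
    rw [pow_succ', pow_succ', MulAut.mul_apply, MulAut.mul_apply, h, ih]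

theorem H8_inner {F : Type} [Group F] (φ : MulAut F) (g : F) (k : ℕ) :
    ∃ g' : F, (MulAut.conj g * φ) ^ k = MulAut.conj g' * φ ^ k := by
  induction k with
  | zero => exact ⟨1, by simp⟩
  | succ k ih =>
    obtain ⟨g', h⟩ := ih
    refine ⟨g * φ g', ?_⟩
    rw [pow_succ', h, pow_succ' φ k]
    ext x
    simp [MulAut.mul_apply, MulAut.conj_apply, mul_assoc]

theorem H8_ext {A : Type} [Group A] (φ : MulAut A) (a b : A)
    (θ : MulAut (Monoid.Coprod A (Multiplicative ℤ)))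
    (h1 : ∀ x, θ (Monoid.Coprod.inl x) = Monoid.Coprod.inl (φ x))
    (h2 : θ (Monoid.Coprod.inr (Multiplicative.ofAdd 1)) = Monoid.Coprod.inl a *
      Monoid.Coprod.inr (Multiplicative.ofAdd 1) * Monoid.Coprod.inl b) (k : ℕ) :
    ∃ a' b' : A, (θ ^ k) (Monoid.Coprod.inr (Multiplicative.ofAdd 1)) = Monoid.Coprod.inl a' *
      Monoid.Coprod.inr (Multiplicative.ofAdd 1) * Monoid.Coprod.inl b' := by
  induction k with
  | zero => exact ⟨1, 1, by simp⟩
  | succ k ih =>
    obtain ⟨a', b', h⟩ := ih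
    refine ⟨φ a' * a, b * φ b', ?_⟩
    rw [pow_succ', MulAut.mul_apply, h, map_mul, map_mul, h1, h1, h2, map_mul, map_mul]
    simp only [mul_assoc]

theorem UPG_pow (F : Type) [Group F] (φ : MulAut F) (h : UPG F φ) (k : ℕ) :
    UPG F (φ ^ (k + 1)) := by
  induction h with
  | triv F φ => exact UPG.triv F _
  | iso F F' e φ φ' h hφ ih => exact UPG.iso F F' e _ _ (H8_semi e φ φ' h (k + 1)) ih
  | inner F φ g hφ ih =>
    obtain ⟨g', hg⟩ := H8_inner φ g (k + 1)
    rw [hg]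
    exact UPG.inner F _ g' ih
  | prod A B φ ψ θ h1 h2 hφ hψ ihφ ihψ =>
    exact UPG.prod A B _ _ _ (fun a => (H8_semi _ φ θ (fun a => (h1 a).symm) (k + 1) a).symm)
      (fun a => (H8_semi _ ψ θ (fun a => (h2 a).symm) (k + 1) a).symm) ihφ ihψ
  | ext A φ a b θ h1 h2 hφ ih =>
    obtain ⟨a', b', hab⟩ := H8_ext φ a b θ h1 h2 (k + 1)
    exact UPG.ext A _ a' b' _ (fun a => (H8_semi _ φ θ (fun a => (h1 a).symm) (k + 1) a).symm)
      hab ih

end Pool.Agent.helper42.ML
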